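import Pool.Agent.W551.FolQ.Ar

/-!
# Lower bounds for the Folner functions of the groups `G_ω`
-/

set_option autoImplicit false

namespace Pool.Agent.Results.MP_0b0f5a_al.LowerBounds

/-! ### The groups `G_ω`.  The letters `0`, `1` of the binary words are `false`, `true`. -/

/-- `a(xw) = x̄w` -/
def aMap : List Bool → List Bool
  | [] => []
  | x :: v => (!x) :: v

/-- the functions `β, ζ, δ : {0,1,2} → {a, 1}`, for `j = 0, 1, 2` -/
def bzd : Fin 3 → Fin 3 → (List Bool → List Bool)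
  | 0 => ![aMap, aMap, id]
  | 1 => ![aMap, id, aMap]
  | 2 => ![id, aMap, aMap]

/-- the maps `b_ω`, `c_ω`, `d_ω`, for `j = 0, 1, 2` -/
def bcd (j : Fin 3) : List Bool → (ℕ → Fin 3) → List Bool
  | [], _ => []
  | false :: v, ω => false :: bzd j (ω 0) v
  | true :: v, ω => true :: bcd j v (fun n => ω (n + 1))

theorem aMap_invol : Function.Involutive aMap := by
  rintro (_ | ⟨x, v⟩) <;> simp [aMap]

theorem bzd_invol (j i : Fin 3) : Function.Involutive (bzd j i) := by
  intro v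
  fin_cases i <;> fin_cases j <;> first | exact aMap_invol v | rfl

theorem bcd_invol (j : Fin 3) (ω : ℕ → Fin 3) : Function.Involutive fun v => bcd j v ω := by
  intro v
  induction v generalizing ω with
  | nil => rfl
  | cons x v ih =>
    cases x
    · change false :: bzd j (ω 0) (bzd j (ω 0) v) = _
      rw [bzd_invol]
    · change true :: bcd j (bcd j v _) _ = _
      exact congrArg _ (ih _)

/-- the generator `a`, as a permutation of the finite binary words -/
def a : Equiv.Perm (List Bool) := aMap_invol.toPerm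

/-- the generators `b_ω`, `c_ω`, `d_ω` -/
def gen (ω : ℕ → Fin 3) (j : Fin 3) : Equiv.Perm (List Bool) := (bcd_invol j ω).toPerm

/-- the four generators -/
def gens (ω : ℕ → Fin 3) : Set (Equiv.Perm (List Bool)) := {a, gen ω 0, gen ω 1, gen ω 2}

/-- the group `G_ω = ⟨a, b_ω, c_ω, d_ω⟩` -/
def G (ω : ℕ → Fin 3) : Subgroup (Equiv.Perm (List Bool)) := Subgroup.closure (gens ω)

/-- `|sE △ E| / |E| < 1 / n` for each of the four generators `s` -/
def IsFolner (ω : ℕ → Fin 3) (n : ℕ) (E : Set (G ω)) : Prop :=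
  ∀ s : G ω, (s : Equiv.Perm (List Bool)) ∈ gens ω →
    ((symmDiff ((fun x => s * x) '' E) E).ncard : ℝ) / (E.ncard : ℝ) < 1 / (n : ℝ)

/-- `ω ∈ Ξ`: at least two symbols occur infinitely often -/
def Xi (ω : ℕ → Fin 3) : Prop :=
  ∃ i j : Fin 3, i ≠ j ∧ (∀ N : ℕ, ∃ n ≥ N, ω n = i) ∧ (∀ N : ℕ, ∃ n ≥ N, ω n = j)

/-- the runs of equal letters in `ω` are of bounded length: for some `p` every window of `p`
consecutive places contains a place `k` with `ω k ≠ ω (k + 1)` -/
def BoundedRuns (ω : ℕ → Fin 3) : Prop :=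
  ∃ p : ℕ, ∀ m : ℕ, ∃ k : ℕ, m ≤ k ∧ k < m + p ∧ ω k ≠ ω (k + 1)

/-! ### Comparison with the helper files -/

theorem a_eq : a = Pool.Agent.W380.Fol.a := by
  ext1 v
  rcases v with _ | ⟨x, v⟩ <;> rfl

theorem bzd_eq (ω : ℕ → Fin 3) (j : Fin 3) (v : List Bool) :
    bzd j (ω 0) v = if Fin.rev j = ω 0 then v else Pool.Agent.W380.Fol.aFun v := by
  have ha : ∀ v, aMap v = Pool.Agent.W380.Fol.aFun v := by
    rintro (_ | ⟨x, v⟩) <;> rfl
  generalize ω 0 = i
  fin_cases i <;> fin_cases j <;> simp [bzd, ha, Fin.rev, Fin.ext_iff]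

theorem gen_eq (ω : ℕ → Fin 3) (j : Fin 3) : gen ω j = Pool.Agent.W380.Fol.B ω (Fin.rev j) := by
  ext1 v
  change bcd j v ω = Pool.Agent.W380.Fol.bFun v ω (Fin.rev j)
  induction v generalizing ω with
  | nil => rfl
  | cons x v ih =>
    cases x
    · change false :: bzd j (ω 0) v = false :: _
      rw [bzd_eq]
    · change true :: _ = true :: _
      rw [ih]

theorem gens_eq (ω : ℕ → Fin 3) : gens ω = Pool.Agent.W380.Fol.gens ω := by
  unfold gens Pool.Agent.W380.Fol.gens
  rw [a_eq, gen_eq, gen_eq, gen_eq]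
  ext x
  simp only [Set.mem_insert_iff, Set.mem_singleton_iff, Set.mem_ofPred_eq]
  constructor
  · rintro (h | h | h | h)
    · exact Or.inl h
    · exact Or.inr ⟨_, h⟩
    · exact Or.inr ⟨_, h⟩
    · exact Or.inr ⟨_, h⟩
  · rintro (h | ⟨y, h⟩)
    · exact Or.inl h
    · fin_cases y
      · exact Or.inr (Or.inr (Or.inr h))
      · exact Or.inr (Or.inr (Or.inl h))
      · exact Or.inr (Or.inl h)

open Classical in
theorem key (ω : ℕ → Fin 3) (n : ℕ) (hn : 1 ≤ n) (E : Set (G ω)) (hE : E.Finite)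
    (hne : E.Nonempty) (h : IsFolner ω n E) :
    ∃ F : Finset (Equiv.Perm (List Bool)), F.Nonempty ∧ F.card = E.ncard ∧ ∀ N, 4 * N ≤ n →
      N * (F.filter fun z => ∃ s ∈ Pool.Agent.W380.Fol.gens ω, z * s ∉ F).card ≤ F.card := by
  set F : Finset (Equiv.Perm (List Bool)) :=
    hE.toFinset.image (fun x : G ω => ((x⁻¹ : G ω) : Equiv.Perm (List Bool))) with hF
  have hinj : Function.Injective (fun x : G ω => ((x⁻¹ : G ω) : Equiv.Perm (List Bool))) := by
    intro x y hxy
    exact inv_injective (Subtype.val_injective hxy)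
  have hmem : ∀ x : G ω, ((x⁻¹ : G ω) : Equiv.Perm (List Bool)) ∈ F ↔ x ∈ E := by
    intro x
    rw [hF, Finset.mem_image]
    constructor
    · rintro ⟨y, hy, hxy⟩
      rw [← hinj hxy]
      exact hE.mem_toFinset.1 hy
    · intro hx
      exact ⟨x, hE.mem_toFinset.2 hx, rfl⟩
  have hcard : F.card = E.ncard := by
    rw [hF, Finset.card_image_of_injective _ hinj, ← Set.ncard_eq_toFinset_card E hE]
  have hFne : F.Nonempty := by
    obtain ⟨x, hx⟩ := hne
    exact ⟨_, (hmem x).2 hx⟩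
  refine ⟨F, hFne, hcard, fun N hN => Pool.Agent.W551.FolQ.bd_four ω F n ?_ N hN⟩
  intro s hs
  have hs' : s ∈ gens ω := by rw [gens_eq]; exact hs
  have hsG : s ∈ G ω := Subgroup.subset_closure hs'
  set s' : G ω := ⟨s, hsG⟩ with hs'd
  have h1 := h s' hs'
  have hEpos : (0 : ℝ) < E.ncard := by
    rw [← hcard]
    exact_mod_cast hFne.card_pos
  have hnpos : (0 : ℝ) < n := by exact_mod_cast hn
  rw [div_lt_div_iff₀ hEpos hnpos, one_mul] at h1
  have hfin : (symmDiff ((fun x => s' * x) '' E) E).Finite := by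
    rw [Set.symmDiff_def]
    exact ((hE.image _).subset Set.sdiff_subset).union (hE.subset Set.sdiff_subset)
  have h2 : (F.filter fun z => z * s ∉ F).card ≤ (symmDiff ((fun x => s' * x) '' E) E).ncard := by
    rw [Set.ncard_eq_toFinset_card _ hfin, ← Finset.card_image_of_injective _ hinj]
    refine Finset.card_le_card fun z hz => ?_
    rw [Finset.mem_filter] at hz
    obtain ⟨hz1, hz2⟩ := hz
    obtain ⟨x, hx, rfl⟩ := Finset.mem_image.1 hz1
    have hxE : x ∈ E := hE.mem_toFinset.1 hx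
    refine Finset.mem_image.2 ⟨x, hfin.mem_toFinset.2 ?_, rfl⟩
    rw [Set.mem_symmDiff]
    right
    refine ⟨hxE, ?_⟩
    rintro ⟨y, hy, hyx⟩
    apply hz2
    have h3 : ((x⁻¹ : G ω) : Equiv.Perm (List Bool)) * s = ((y⁻¹ : G ω) : Equiv.Perm (List Bool)) := by
      have h4 : x⁻¹ * s' = y⁻¹ := by
        rw [← hyx]
        simp
      rw [← h4]
      rfl
    rw [h3]
    exact (hmem y).2 hy
  have h5 : (n : ℝ) * ((F.filter fun z => z * s ∉ F).card : ℝ) ≤ F.card := by
    rw [hcard]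
    have h6 : ((F.filter fun z => z * s ∉ F).card : ℝ) ≤
        ((symmDiff ((fun x => s' * x) '' E) E).ncard : ℝ) := by exact_mod_cast h2
    nlinarith
  exact_mod_cast h5

/-- **Theorem.** Let `ω ∈ Ξ`. Then the Folner function of `G_ω` is not at most exponential: for
every `C` there is `n ≥ 1` such that each finite nonempty `E` with `|sE △ E| / |E| < 1 / n` for
the four generators `s` has more than `C e^{C n}` elements. If the runs of equal letters in `ω`
are bounded, there are `c, C > 0` such that `|E| ≥ e^{c n log n} / C` for all `n ≥ 1` and all such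
`E`. -/
theorem result (ω : ℕ → Fin 3) (hω : Xi ω) :
    (∀ C : ℝ, ∃ n : ℕ, 1 ≤ n ∧ ∀ E : Set (G ω), E.Finite → E.Nonempty → IsFolner ω n E →
      C * Real.exp (C * n) < (E.ncard : ℝ)) ∧
    (BoundedRuns ω → ∃ c : ℝ, 0 < c ∧ ∃ C : ℝ, 0 < C ∧ ∀ n : ℕ, 1 ≤ n → ∀ E : Set (G ω),
      E.Finite → E.Nonempty → IsFolner ω n E →
        Real.exp (c * (n * Real.log n)) ≤ C * (E.ncard : ℝ)) := by
  classical
  have hw : ¬ ∃ (i : Fin 3) (N : ℕ), ∀ n ≥ N, ω n = i := by
    rintro ⟨e, N, he⟩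
    obtain ⟨i, j, hij, hi, hj⟩ := hω
    obtain ⟨n, hn, hni⟩ := hi N
    obtain ⟨m, hm, hmj⟩ := hj N
    exact hij (by rw [← hni, ← hmj, he n hn, he m hm])
  constructor
  · intro C
    obtain ⟨N, hN, h⟩ := Pool.Agent.W380.Fol.main_P ω hw (4 * |C|)
    refine ⟨4 * N, by omega, fun E hE hne hb => ?_⟩
    obtain ⟨F, hF, hcard, hk⟩ := key ω (4 * N) (by omega) E hE hne hb
    have h1 := h F hF (by convert hk N le_rfl)
    rw [hcard] at h1
    refine lt_of_le_of_lt ?_ h1
    push_cast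
    have hC : C ≤ |C| := le_abs_self C
    have hC0 : 0 ≤ |C| := abs_nonneg C
    have hN0 : (0 : ℝ) ≤ N := Nat.cast_nonneg N
    have h4 : Real.exp (C * (4 * N)) ≤ Real.exp (4 * |C| * N) := by
      apply Real.exp_le_exp.2
      nlinarith
    calc C * Real.exp (C * (4 * N)) ≤ 4 * |C| * Real.exp (C * (4 * N)) := by
          gcongr
          linarith
      _ ≤ _ := by gcongr
  · rintro ⟨p, hp⟩
    obtain ⟨c0, hc0, N0, hN0⟩ := Pool.Agent.W551.FolQ.quant_P (w := ω) (p := p) hp
    obtain ⟨c, hc, C, hC, h⟩ := Pool.Agent.W551.FolQ.arith 4 N0 (by norm_num) c0 hc0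
    refine ⟨c, hc, C, hC, fun n hn E hE hne hb => ?_⟩
    obtain ⟨F, hF, hcard, hk⟩ := key ω n hn E hE hne hb
    rw [← hcard]
    refine h n F.card (by exact_mod_cast hF.card_pos) fun N hN hNn => ?_
    exact hN0 N hN F hF (by convert hk N hNn)

end Pool.Agent.Results.MP_0b0f5a_al.LowerBounds
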